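import Pool.Agent.N520.SV.Fin

set_option autoImplicit false

open Pool.Agent.W689.Mk

namespace Pool.Agent.Results.MP_f22a19_gt.FlagsWithBoundedQuotients

/-- the standard simplex of dimension `k` -/
abbrev Simplex (k : ℕ) : Type := stdSimplex ℝ (Fin (k + 1))

/-- real singular chains of degree `k` of the space `M` -/
abbrev Chain (k : ℕ) (M : Type) [TopologicalSpace M] : Type := C(Simplex k, M) →₀ ℝ

/-- the inclusion of the face opposite to the vertex `i` -/
noncomputable def face {k : ℕ} (i : Fin (k + 2)) : C(Simplex k, Simplex (k + 1)) :=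
  ⟨stdSimplex.map i.succAbove, stdSimplex.continuous_map _⟩

/-- the boundary of singular chains -/
noncomputable def bdry {M : Type} [TopologicalSpace M] (k : ℕ) : Chain (k + 1) M →ₗ[ℝ] Chain k M :=
  Finsupp.linearCombination ℝ fun σ =>
    ∑ i : Fin (k + 2), ((-1 : ℝ) ^ (i : ℕ)) • Finsupp.single (σ.comp (face i)) 1

/-- the `ℓ¹`-norm of a singular chain: the sum of the absolute values of its coefficients -/
noncomputable def norm1 {M : Type} [TopologicalSpace M] {k : ℕ} (c : Chain k M) : ℝ :=
  ∑ σ ∈ c.support, |c σ|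

/-- The `ℓ¹`-seminorm of the homology class of a cycle `z`: the infimum of the norms of the
homologous cycles. For a fundamental cycle of a closed oriented manifold this is the simplicial
volume. -/
noncomputable def seminorm1 {k : ℕ} {M : Type} [TopologicalSpace M] (z : Chain (k + 1) M) : ℝ :=
  ⨅ c : Chain (k + 2) M, norm1 (z + bdry (k + 1) c)

/-- The linear holonomy of `H` preserves the flag `0 = S 0 ⊆ … ⊆ S m ⊆ S (m + 1) = E`, is uniformly
bounded on `S (i + 1) / S i` for `i < m`, and uniformly quasi-conformal on the last quotient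
`E / S m`: for one constant `C` and factors `c > 0` depending on `γ`, the linear part of `hol γ`
multiplies the quotient norm at most by `C * c`, and its inverse at most by `C / c`. -/
def BoundedFlag {Γ E : Type} [Group Γ] [NormedAddCommGroup E] [NormedSpace ℝ E]
    (hol : Γ →* (E ≃ᵃ[ℝ] E)) (H : Subgroup Γ) (S : ℕ → Submodule ℝ E) (m : ℕ) : Prop :=
  S 0 = ⊥ ∧ S (m + 1) = ⊤ ∧ (∀ i ≤ m, S i ≤ S (i + 1)) ∧
    (∀ i ≤ m, ∀ γ ∈ H, ∀ v ∈ S i, (hol γ).linear v ∈ S i) ∧
    ∃ C : ℝ, (∀ i < m, ∀ γ ∈ H, ∀ v ∈ S (i + 1), ∃ w ∈ S i, ‖(hol γ).linear v - w‖ ≤ C * ‖v‖) ∧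
      ∀ γ ∈ H, ∃ c : ℝ, 0 < c ∧ ∀ v : E, (∃ w ∈ S m, ‖(hol γ).linear v - w‖ ≤ C * c * ‖v‖) ∧
        ∃ w ∈ S m, ‖(hol γ⁻¹).linear v - w‖ ≤ C * c⁻¹ * ‖v‖

/-- Let `M = X / Γ` be a closed affine manifold with parallel volume: `X` is a connected cover with
its group `Γ` acting freely, `dev` the developing map and `hol` the holonomy; nothing is assumed
about the developing map. Suppose that the linear holonomy of a subgroup `H` of finite index
preserves a flag of linear subspaces, is bounded on all quotients of the flag but the last one, and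
uniformly quasi-conformal on the last one. Then the `ℓ¹`-seminorm of all real homology classes of
`M` of positive degree is zero; in particular the simplicial volume of `M` is zero. -/
theorem result (X Γ E : Type) [NormedAddCommGroup E] [NormedSpace ℝ E]
    [FiniteDimensional ℝ E] [TopologicalSpace X] [T2Space X] [SecondCountableTopology X]
    [ConnectedSpace X] [Group Γ] [MulAction Γ X] (dev : X → E) (hol : Γ →* (E ≃ᵃ[ℝ] E))
    (D : AffData X Γ E dev hol) (hfree : ∀ (γ : Γ) (x : X), γ • x = x → γ = 1)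
    (H : Subgroup Γ) (hH : H.FiniteIndex) (S : ℕ → Submodule ℝ E) (m : ℕ)
    (hS : BoundedFlag hol H S m)
    (k : ℕ) (z : Chain (k + 1) (MulAction.orbitRel.Quotient Γ X)) (hz : bdry k z = 0) :
    seminorm1 z = 0 :=
  Pool.Agent.N520.SV.bounded_zero X Γ E dev hol D hfree H hH S m hS k z hz

end Pool.Agent.Results.MP_f22a19_gt.FlagsWithBoundedQuotients
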